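import Mathlib
import Pool.Agent.H268.DG.T14
import Pool.Agent.H268.DG.T15

/-!
# `PA` is a proper subclass of `Diag`; `Diag` and the degrees computing random reals are incomparable

There is a Turing degree in `Diag` which computes no computably bounded diagonally noncomputable
function.  In particular it computes no `{0,1}`-valued diagonally noncomputable function, so it is
not a PA degree, and it computes no Martin-Löf random real.  The theorem relativises, and gives a
Turing ideal (the second order part of an `ω`-model of `RCA₀`) in which every equivalence relation
with at least two classes which is c.e. in a member has a diagonal function computable from a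
member, while no member computes a computably bounded diagonally noncomputable function.

The definitions `NoBdDnc`, `CeerIn` are in `Pool/Agent/H268/DG/Defs.lean`, the definitions `orc`,
`NontrivialCeer`, `ComputesDiagonal`, `InDiag`, `MLRandom` are in the library (`Helper423_Ceer`).

Proof outline: forcing with a finite string `σ`, finitely many active relations `E_i` without
`Z`-computable diagonal function, and a nonempty `Π⁰₁(Z)` class of finite tuples of `{0,1}`-valued
`E_i`-invariant functions such that every combination of values is taken at some number by all
tuples of the class.  A functional is defeated by passing to a product of classes (one factor for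
every possible value), and the density lemma `dens` shows that the product contains a condition.
-/

namespace Pool.Agent.Results.MP_a87378_lc.DiagWithoutBoundedDnc

open Helper423Ceer (orc ComputesDiagonal InDiag NontrivialCeer MLRandom)
open Pool.Agent.H268.DG (NoBdDnc CeerIn)

/-- (1) There is a real `X` whose degree is in `Diag` and which computes no computably bounded
diagonally noncomputable function and no Martin-Löf random real.  (2) If `Z` computes no computably
bounded diagonally noncomputable function, then there is such a real `X` above `Z` which computes a
diagonal function for every equivalence relation with at least two classes which is c.e. in `Z`.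
(3) A Turing ideal closed under diagonal functions for relations c.e. in its members, in which no
member computes a computably bounded diagonally noncomputable function. -/
theorem result :
    (∃ X : ℕ → Bool, InDiag (orc X) ∧
      (∀ f h : ℕ → ℕ, Computable h → (∀ n, f n < h n) →
        (∀ n, f n ∉ Nat.Partrec.Code.eval (Denumerable.ofNat Nat.Partrec.Code n) n) →
        ¬ TuringReducible (fun n => Part.some (f n)) (orc X)) ∧
      ∀ Y : ℕ → Bool, MLRandom Y → ¬ TuringReducible (orc Y) (orc X)) ∧
    (∀ Z : ℕ → Bool, NoBdDnc Z → ∃ X : ℕ → Bool, TuringReducible (orc Z) (orc X) ∧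
      (∀ E, CeerIn Z E → ComputesDiagonal (orc X) E) ∧ NoBdDnc X ∧
      ∀ Y : ℕ → Bool, MLRandom Y → ¬ TuringReducible (orc Y) (orc X)) ∧
    ∃ I : Set (ℕ → Bool), I.Nonempty ∧
      (∀ X ∈ I, ∀ Y, TuringReducible (orc Y) (orc X) → Y ∈ I) ∧
      (∀ X ∈ I, ∀ Y ∈ I, (fun k => if k % 2 = 0 then X (k / 2) else Y (k / 2)) ∈ I) ∧
      (∀ Z ∈ I, ∀ E, CeerIn Z E → ∃ X ∈ I, ComputesDiagonal (orc X) E) ∧
      ∀ X ∈ I, NoBdDnc X := by
  have hml : ∀ X : ℕ → Bool, NoBdDnc X → ∀ Y : ℕ → Bool, MLRandom Y →
      ¬ TuringReducible (orc Y) (orc X) := fun X hX Y hY h =>
    Pool.Agent.H268.DG.ml_dnc hY (Pool.Agent.H268.DG.down h hX)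
  refine ⟨?_, ?_, Pool.Agent.H268.DG.ideal⟩
  · obtain ⟨X, -, h2, h3⟩ := Pool.Agent.H268.DG.rel_thm Pool.Agent.H268.DG.base
    exact ⟨X, fun E hE => h2 E (Pool.Agent.H268.DG.ceerIn_of_ceer _ hE), h3, hml X h3⟩
  · intro Z hZ
    obtain ⟨X, h1, h2, h3⟩ := Pool.Agent.H268.DG.rel_thm hZ
    exact ⟨X, h1, h2, h3, hml X h3⟩

end Pool.Agent.Results.MP_a87378_lc.DiagWithoutBoundedDnc
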